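import Mathlib

/-! THE FIRST CORNER, real analysis. `u` (the part of the volume which is known) and `J` (the information) are monotone
on `[0, 1]` and right continuous, and `J 1 - J 0 < u 1 - u 0`. Then there is an atom of `u` with a smaller atom of `J`, or
a point `a` where `J` is differentiable with respect to `u` with derivative less than one and `u` is continuous, and
differentiable with positive derivative or infinitely fast. Parametrization by the value `v` of `u`: the inverse function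
`crt u` and the function `prm u J` (jumps filled linearly) are monotone, so differentiable almost everywhere. -/

set_option autoImplicit false

namespace Pool.Agent.Helper89.FST

open MeasureTheory Set Filter Topology Function

noncomputable section

/-- `L` is differentiable with respect to `u` at `a`, derivative `y` -/
def Cmp (L u : ℝ → ℝ) (a y : ℝ) : Prop :=
  ∀ ε : ℝ, 0 < ε → ∀ᶠ c in 𝓝 a, |L c - L a - y * (u c - u a)| ≤ ε * |u c - u a|

/-- increments between two points near `a` -/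
theorem Cmp.incr {L u : ℝ → ℝ} {a y : ℝ} (h : Cmp L u a y) {ε : ℝ} (hε : 0 < ε) :
    ∃ δ > 0, ∀ c c' r : ℝ, |c - a| < δ → |c' - a| < δ → |u c - u a| ≤ r → |u c' - u a| ≤ r →
      |L c' - L c - y * (u c' - u c)| ≤ ε * r := by
  obtain ⟨δ, hδ, hd⟩ := Metric.eventually_nhds_iff.mp (h (ε / 2) (half_pos hε))
  refine ⟨δ, hδ, fun c c' r h1 h2 h3 h4 => ?_⟩
  have a1 := hd (show dist c a < δ by rwa [Real.dist_eq])
  have a2 := hd (show dist c' a < δ by rwa [Real.dist_eq])
  have a3 := abs_le.mp a1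
  have a4 := abs_le.mp a2
  have b1 : ε / 2 * |u c - u a| ≤ ε / 2 * r := mul_le_mul_of_nonneg_left h3 (half_pos hε).le
  have b2 : ε / 2 * |u c' - u a| ≤ ε / 2 * r := mul_le_mul_of_nonneg_left h4 (half_pos hε).le
  rw [abs_le]
  constructor <;> nlinarith [a3.1, a3.2, a4.1, a4.2]

/-- SANDWICH -/
theorem sandwich {L u P : ℝ → ℝ} {a v y V : ℝ} (hv : u a = v) (hV : v < V) (hc : ContinuousAt u a)
    (hP : HasDerivAt P y v) (hlo : ∀ᶠ c in 𝓝 a, P (u c) ≤ L c)
    (hup : ∀ᶠ c in 𝓝 a, ∀ v', u c < v' → v' < V → L c ≤ P v') : Cmp L u a y := by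
  have hPc : ContinuousAt P v := hP.continuousAt
  -- values on the fibre
  have hfib : ∀ c, P (u c) ≤ L c → (∀ v', u c < v' → v' < V → L c ≤ P v') → u c = v → L c = P v := by
    intro c h1 h2 h3
    rw [h3] at h1 h2
    refine le_antisymm ?_ h1
    have h4 : Tendsto P (𝓝[>] v) (𝓝 (P v)) := hPc.continuousWithinAt
    refine ge_of_tendsto h4 ?_
    filter_upwards [Ioo_mem_nhdsGT hV] with v' hv' using h2 v' hv'.1 hv'.2
  have hLa : L a = P v := hfib a hlo.self_of_nhds hup.self_of_nhds hv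
  intro ε hε
  set K : ℝ := |y| + 1 with hK
  have hK0 : 0 < K := by positivity
  set t : ℝ := min 1 (ε / (4 * K)) with ht
  have ht0 : 0 < t := lt_min one_pos (by positivity)
  have ht1 : t ≤ 1 := min_le_left _ _
  have htK : t * K ≤ ε / 4 := by
    have h1 : t ≤ ε / (4 * K) := min_le_right _ _
    calc t * K ≤ ε / (4 * K) * K := mul_le_mul_of_nonneg_right h1 hK0.le
      _ = ε / 4 := by field_simp
  have hε' : 0 < ε / 8 := by linarith
  have h1 : ∀ᶠ v' in 𝓝 v, |P v' - P v - y * (v' - v)| ≤ ε / 8 * |v' - v| := by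
    have h2 := hP.isLittleO.def hε'
    filter_upwards [h2] with v' hv'
    rw [Real.norm_eq_abs, Real.norm_eq_abs, smul_eq_mul] at hv'
    rw [mul_comm y]
    exact hv'
  obtain ⟨δ, hδ, hd⟩ := Metric.eventually_nhds_iff.mp h1
  have h2 : ∀ᶠ c in 𝓝 a, |u c - v| < min (δ / 2) ((V - v) / 2) := by
    have h3 := Metric.tendsto_nhds.mp (show Tendsto u (𝓝 a) (𝓝 v) by rw [← hv]; exact hc)
      (min (δ / 2) ((V - v) / 2)) (lt_min (by linarith) (by linarith))
    filter_upwards [h3] with c hc'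
    rwa [Real.dist_eq] at hc'
  filter_upwards [hlo, hup, h2] with c c1 c2 c3
  rw [hLa, hv]
  have c4 : |u c - v| < δ / 2 := c3.trans_le (min_le_left _ _)
  have c5 : |u c - v| < (V - v) / 2 := c3.trans_le (min_le_right _ _)
  rcases eq_or_ne (u c) v with h3 | h3
  · rw [hfib c c1 c2 h3, h3]
    simp
  · have h4 : 0 < |u c - v| := abs_pos.mpr (sub_ne_zero.mpr h3)
    have a1 := abs_le.mp (hd (show dist (u c) v < δ by rw [Real.dist_eq]; linarith))
    set v' : ℝ := u c + t * |u c - v| with hv'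
    have b1 : u c < v' := by rw [hv']; linarith [mul_pos ht0 h4]
    have b2 : t * |u c - v| ≤ |u c - v| := by
      calc t * |u c - v| ≤ 1 * |u c - v| := mul_le_mul_of_nonneg_right ht1 h4.le
        _ = _ := one_mul _
    have b3 : v' < V := by
      rw [hv']
      have := (abs_lt.mp c5).2
      linarith
    have b4 : |v' - v| ≤ 2 * |u c - v| := by
      have e1 : v' - v = (u c - v) + t * |u c - v| := by rw [hv']; ring
      rw [e1]
      refine (abs_add_le _ _).trans ?_
      rw [abs_of_nonneg (mul_nonneg ht0.le h4.le)]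
      linarith
    have a2 := abs_le.mp (hd (show dist v' v < δ by rw [Real.dist_eq]; linarith))
    have c6 := c2 v' b1 b3
    have d1 : y * (v' - u c) ≤ ε / 4 * |u c - v| := by
      have e1 : v' - u c = t * |u c - v| := by rw [hv']; ring
      rw [e1]
      calc y * (t * |u c - v|) ≤ K * (t * |u c - v|) := by
            apply mul_le_mul_of_nonneg_right _ (mul_nonneg ht0.le h4.le)
            rw [hK]
            linarith [le_abs_self y]
        _ = t * K * |u c - v| := by ring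
        _ ≤ ε / 4 * |u c - v| := mul_le_mul_of_nonneg_right htK h4.le
    have d2 : ε / 8 * |v' - v| ≤ ε / 4 * |u c - v| := by
      calc ε / 8 * |v' - v| ≤ ε / 8 * (2 * |u c - v|) := mul_le_mul_of_nonneg_left b4 hε'.le
        _ = _ := by ring
    rw [abs_le]
    constructor
    · nlinarith [a1.1, mul_pos hε h4]
    · nlinarith [a2.2, mul_pos hε h4]

/-- a function which is infinitely slow with respect to `u`, or `u` is differentiable -/
theorem deriv_of_cmp {u : ℝ → ℝ} {a k : ℝ} (hk : 0 < k) (h : Cmp id u a k) : HasDerivAt u k⁻¹ a := by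
  rw [hasDerivAt_iff_isLittleO, Asymptotics.isLittleO_iff]
  intro e he
  set ε : ℝ := min (k / 2) (e * k ^ 2 / 2) with hε
  have hε0 : 0 < ε := lt_min (by positivity) (by positivity)
  filter_upwards [h ε hε0] with c hc
  rw [Real.norm_eq_abs, Real.norm_eq_abs, smul_eq_mul]
  have h0 : |(c - a) - k * (u c - u a)| ≤ ε * |u c - u a| := hc
  have h1 : k * |u c - u a| ≤ |c - a| + ε * |u c - u a| := by
    have h2 : k * |u c - u a| = |k * (u c - u a)| := by rw [abs_mul, abs_of_pos hk]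
    rw [h2]
    have h3 : k * (u c - u a) = (c - a) - ((c - a) - k * (u c - u a)) := by ring
    calc |k * (u c - u a)| = |(c - a) - ((c - a) - k * (u c - u a))| := by rw [← h3]
      _ ≤ |c - a| + |(c - a) - k * (u c - u a)| := abs_sub _ _
      _ ≤ _ := by linarith
  have h2 : ε ≤ k / 2 := min_le_left _ _
  have h3 : ε ≤ e * k ^ 2 / 2 := min_le_right _ _
  have h4 : k / 2 * |u c - u a| ≤ |c - a| := by
    have : ε * |u c - u a| ≤ k / 2 * |u c - u a| := mul_le_mul_of_nonneg_right h2 (abs_nonneg _)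
    linarith
  have h5 : |u c - u a - (c - a) * k⁻¹| = k⁻¹ * |(c - a) - k * (u c - u a)| := by
    have e1 : u c - u a - (c - a) * k⁻¹ = -(k⁻¹ * ((c - a) - k * (u c - u a))) := by
      field_simp
      ring
    rw [e1, abs_neg, abs_mul, abs_of_pos (inv_pos.mpr hk)]
  rw [h5]
  calc k⁻¹ * |(c - a) - k * (u c - u a)| ≤ k⁻¹ * (ε * |u c - u a|) := mul_le_mul_of_nonneg_left h0 (inv_pos.mpr hk).le
    _ ≤ k⁻¹ * (e * k ^ 2 / 2 * |u c - u a|) := by
        apply mul_le_mul_of_nonneg_left _ (inv_pos.mpr hk).le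
        exact mul_le_mul_of_nonneg_right h3 (abs_nonneg _)
    _ = e * (k / 2 * |u c - u a|) := by field_simp
    _ ≤ e * |c - a| := mul_le_mul_of_nonneg_left h4 he.le

/-! ### the inverse function -/

/-- the least point of `[0, 1]` where `u` is at least `v` -/
def crt (u : ℝ → ℝ) (v : ℝ) : ℝ := sInf {c | c ∈ Icc (0 : ℝ) 1 ∧ v ≤ u c}

section inv

variable {u J : ℝ → ℝ} (hu : Monotone u) (hr : ∀ c, ContinuousWithinAt u (Ici c) c)

theorem crt_mem {v : ℝ} (hv : v ≤ u 1) : crt u v ∈ Icc (0 : ℝ) 1 := by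
  have hne : {c | c ∈ Icc (0 : ℝ) 1 ∧ v ≤ u c}.Nonempty := ⟨1, ⟨zero_le_one, le_rfl⟩, hv⟩
  have hb : BddBelow {c | c ∈ Icc (0 : ℝ) 1 ∧ v ≤ u c} := ⟨0, fun _ hc => hc.1.1⟩
  exact ⟨le_csInf hne fun _ hc => hc.1.1, csInf_le hb ⟨⟨zero_le_one, le_rfl⟩, hv⟩⟩

theorem crt_le {v c : ℝ} (hc : c ∈ Icc (0 : ℝ) 1) (h : v ≤ u c) : crt u v ≤ c :=
  csInf_le ⟨0, fun _ hc => hc.1.1⟩ ⟨hc, h⟩

theorem crt_mono {v v' : ℝ} (h : v ≤ v') (hv : v' ≤ u 1) : crt u v ≤ crt u v' :=
  csInf_le_csInf ⟨0, fun _ hc => hc.1.1⟩ ⟨1, ⟨zero_le_one, le_rfl⟩, hv⟩ fun _ hc => ⟨hc.1, h.trans hc.2⟩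

theorem lt_of_lt_crt {v c : ℝ} (hc : c ∈ Icc (0 : ℝ) 1) (h : c < crt u v) : u c < v := by
  by_contra h1
  exact absurd (crt_le hc (not_lt.1 h1)) (not_le.2 h)

include hu hr in
/-- the infimum is attained -/
theorem le_u_crt {v : ℝ} (hv : v ≤ u 1) : v ≤ u (crt u v) := by
  have hne : {c | c ∈ Icc (0 : ℝ) 1 ∧ v ≤ u c}.Nonempty := ⟨1, ⟨zero_le_one, le_rfl⟩, hv⟩
  have h1 : ∀ c, crt u v < c → v ≤ u c := by
    intro c hc
    obtain ⟨c', hc', hlt⟩ := exists_lt_of_csInf_lt hne hc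
    exact hc'.2.trans (hu hlt.le)
  have h2 : Tendsto u (𝓝[>] (crt u v)) (𝓝 (u (crt u v))) :=
    (hr (crt u v)).mono_left (nhdsWithin_mono _ Ioi_subset_Ici_self)
  refine ge_of_tendsto h2 ?_
  filter_upwards [self_mem_nhdsWithin] with c hc using h1 c hc

include hu in
theorem left_le {v : ℝ} (h0 : ∀ c ≤ 0, u c = u 0) (hv0 : u 0 ≤ v) (hv : v ≤ u 1) : leftLim u (crt u v) ≤ v := by
  have h1 : ∀ c, c < crt u v → u c ≤ v := by
    intro c hc
    rcases le_or_gt c 0 with h2 | h2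
    · rw [h0 c h2]
      exact hv0
    · exact (lt_of_lt_crt ⟨h2.le, hc.le.trans (crt_mem hv).2⟩ hc).le
  have h2 : Tendsto u (𝓝[<] (crt u v)) (𝓝 (leftLim u (crt u v))) := hu.tendsto_leftLim _
  refine le_of_tendsto h2 ?_
  filter_upwards [self_mem_nhdsWithin] with c hc using h1 c hc

include hu hr in
theorem lt_crt {v c : ℝ} (h : u c < v) (hv : v ≤ u 1) : c < crt u v := by
  by_contra h1
  push Not at h1
  have := hu h1
  linarith [le_u_crt hu hr hv]

/-- `J` in the parameter `v`, the jumps of `u` are filled with slope one -/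
def prm (u J : ℝ → ℝ) (v : ℝ) : ℝ := leftLim J (crt u v) + (v - leftLim u (crt u v))

variable (hJ : Monotone J) (hat : ∀ a ∈ Icc (0 : ℝ) 1, u a - leftLim u a ≤ J a - leftLim J a)

include hat in
theorem prm_le {v : ℝ} (hv : v ≤ u 1) (h : v ≤ u (crt u v)) : prm u J v ≤ J (crt u v) := by
  have := hat _ (crt_mem hv)
  unfold prm
  linarith

include hu in
theorem le_prm (h0 : ∀ c ≤ 0, u c = u 0) {v : ℝ} (hv0 : u 0 ≤ v) (hv : v ≤ u 1) :
    leftLim J (crt u v) ≤ prm u J v := by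
  have := left_le hu h0 hv0 hv
  unfold prm
  linarith

include hu hr hJ hat in
theorem prm_mono (h0 : ∀ c ≤ 0, u c = u 0) : MonotoneOn (prm u J) (Icc (u 0) (u 1)) := by
  intro v hv v' hv' hvv
  rcases eq_or_lt_of_le (crt_mono hvv hv'.2) with h1 | h1
  · unfold prm
    rw [h1]
    linarith
  · have h2 := prm_le hat hv.2 (le_u_crt hu hr hv.2)
    have h3 := le_prm (J := J) hu h0 hv'.1 hv'.2
    have h4 := hJ.le_leftLim h1
    linarith

include hu hr hJ hat in
theorem prm_lo {c : ℝ} (hc : c ∈ Icc (0 : ℝ) 1) : prm u J (u c) ≤ J c := by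
  have h1 : u c ≤ u 1 := hu hc.2
  exact (prm_le hat h1 (le_u_crt hu hr h1)).trans (hJ (crt_le hc le_rfl))

include hu hr hJ in
theorem prm_up (h0 : ∀ c ≤ 0, u c = u 0) {c v : ℝ} (hc : 0 ≤ c) (h : u c < v) (hv : v ≤ u 1) :
    J c ≤ prm u J v := by
  have h1 := lt_crt hu hr h hv
  exact (hJ.le_leftLim h1).trans (le_prm hu h0 ((hu hc).trans h.le) hv)

end inv

/-- a monotone function with derivative at least one almost everywhere -/
theorem exists_deriv_lt {f : ℝ → ℝ} {a b : ℝ} (hab : a < b) (hf : MonotoneOn f (Icc a b)) (h : f b - f a < b - a)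
    {Q : ℝ → Prop} (hQ : ∀ᵐ v, v ∈ Ioo a b → Q v) :
    ∃ v ∈ Ioo a b, Q v ∧ DifferentiableAt ℝ f v ∧ deriv f v < 1 := by
  by_contra hcon
  push Not at hcon
  have h1 : ∀ᵐ v, v ∈ Ioo a b → DifferentiableAt ℝ f v := by
    have h2 := hf.ae_differentiableWithinAt_of_mem
    filter_upwards [h2] with v hv hvI
    exact (hv (Ioo_subset_Icc_self hvI)).differentiableAt (Icc_mem_nhds hvI.1 hvI.2)
  have h2 : ∀ᵐ v, v ∈ Ioo a b → (1 : ℝ) ≤ deriv f v := by
    filter_upwards [h1, hQ] with v hv hq hvI using hcon v hvI (hq hvI) (hv hvI)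
  have h3 : MonotoneOn f (uIcc a b) := by rwa [uIcc_of_le hab.le]
  have h4 := h3.intervalIntegral_deriv_mem_uIcc
  have h5 : f a ≤ f b := hf ⟨le_rfl, hab.le⟩ ⟨hab.le, le_rfl⟩ hab.le
  rw [uIcc_of_le (by linarith)] at h4
  have h6 : ∫ _ in a..b, (1 : ℝ) ≤ ∫ x in a..b, deriv f x := by
    refine intervalIntegral.integral_mono_ae_restrict hab.le intervalIntegrable_const h3.intervalIntegrable_deriv ?_
    rw [Filter.EventuallyLE, ← restrict_Ioo_eq_restrict_Icc, ae_restrict_iff' measurableSet_Ioo]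
    exact h2
  rw [intervalIntegral.integral_const, smul_eq_mul, mul_one] at h6
  linarith [h4.2]

/-- inside a jump the function `prm` has slope one -/
theorem prm_slope {u J : ℝ → ℝ} (hu : Monotone u) (h0 : ∀ c ≤ 0, u c = u 0) {v y : ℝ} (hv : v ∈ Ioo (u 0) (u 1))
    (hr : ∀ c, ContinuousWithinAt u (Ici c) c) (hP : HasDerivAt (prm u J) y v) (hy : y < 1) :
    leftLim u (crt u v) = v ∧ u (crt u v) = v := by
  have h1 := left_le hu h0 hv.1.le hv.2.le
  have h2 := le_u_crt hu hr hv.2.le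
  constructor
  · by_contra hne
    have h3 : leftLim u (crt u v) < v := lt_of_le_of_ne h1 hne
    have h4 : HasDerivWithinAt (prm u J) 1 (Iic v) v := by
      have h5 : HasDerivWithinAt (fun x => prm u J v + (x - v)) 1 (Iic v) v := by
        have := ((hasDerivAt_id v).sub_const v).const_add (prm u J v)
        exact this.hasDerivWithinAt
      refine h5.congr_of_eventuallyEq ?_ (by simp)
      have h6 : Ioc (max (leftLim u (crt u v)) (u 0)) v ∈ 𝓝[≤] v := Ioc_mem_nhdsLE (max_lt h3 hv.1)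
      filter_upwards [h6] with x hx
      have h7 : crt u x = crt u v := by
        apply le_antisymm (crt_mono hx.2 hv.2.le)
        by_contra hlt
        push Not at hlt
        have h8 := le_u_crt hu hr (hx.2.trans hv.2.le)
        have h9 := hu.le_leftLim hlt
        have h10 := (le_max_left _ _).trans_lt hx.1
        linarith
      unfold prm
      rw [h7]
      ring
    have h5 := (uniqueDiffOn_Iic v v (mem_Iic.2 le_rfl)).eq_deriv _ (hP.hasDerivWithinAt (s := Iic v)) h4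
    linarith
  · by_contra hne
    have h3 : v < u (crt u v) := lt_of_le_of_ne h2 (Ne.symm hne)
    have h4 : HasDerivWithinAt (prm u J) 1 (Ici v) v := by
      have h5 : HasDerivWithinAt (fun x => prm u J v + (x - v)) 1 (Ici v) v := by
        have := ((hasDerivAt_id v).sub_const v).const_add (prm u J v)
        exact this.hasDerivWithinAt
      refine h5.congr_of_eventuallyEq ?_ (by simp)
      have h6 : Ico v (u (crt u v)) ∈ 𝓝[≥] v := Ico_mem_nhdsGE h3
      filter_upwards [h6] with x hx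
      have h9 : x ≤ u 1 := hx.2.le.trans (hu (crt_mem hv.2.le).2)
      have h7 : crt u x = crt u v := by
        apply le_antisymm
        · exact crt_le (crt_mem hv.2.le) hx.2.le
        · exact crt_mono hx.1 h9
      unfold prm
      rw [h7]
      ring
    have h5 := (uniqueDiffOn_Ici v v (mem_Ici.2 le_rfl)).eq_deriv _ (hP.hasDerivWithinAt (s := Ici v)) h4
    linarith

/-- THE FIRST CORNER for monotone functions on the line, a countable family of further monotone functions -/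
theorem first_line {u J : ℝ → ℝ} (hu : Monotone u) (hJ : Monotone J) (hr : ∀ c, ContinuousWithinAt u (Ici c) c)
    (h0 : ∀ c ≤ 0, u c = u 0) (hJ0 : ∀ c ≤ 0, J c = J 0) (h1 : leftLim u 1 = u 1) (htot : J 1 - J 0 < u 1 - u 0)
    {κ : Type*} [Countable κ] {L : κ → ℝ → ℝ} (hL : ∀ i, Monotone (L i)) {Q : ℝ → Prop}
    (hQ : ∀ᵐ v, v ∈ Ioo (u 0) (u 1) → Q v) :
    (∃ a ∈ Ioo (0 : ℝ) 1, J a - leftLim J a < u a - leftLim u a) ∨
      ∃ a ∈ Ioo (0 : ℝ) 1, ContinuousAt u a ∧ u a ∈ Ioo (u 0) (u 1) ∧ Q (u a) ∧ (∃ y ∈ Ico (0 : ℝ) 1, Cmp J u a y) ∧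
        (∀ i, ∃ y, 0 ≤ y ∧ Cmp (L i) u a y) ∧ ((∃ w > 0, HasDerivAt u w a ∧ Cmp id u a w⁻¹) ∨ Cmp id u a 0) := by
  by_cases hcase : ∃ a ∈ Ioo (0 : ℝ) 1, J a - leftLim J a < u a - leftLim u a
  · exact Or.inl hcase
  right
  push Not at hcase
  have hat : ∀ a ∈ Icc (0 : ℝ) 1, u a - leftLim u a ≤ J a - leftLim J a := by
    intro a ha
    rcases eq_or_lt_of_le ha.1 with h2 | h2
    · rw [← h2]
      have e1 : leftLim u 0 = u 0 := by
        apply leftLim_eq_of_tendsto
        refine tendsto_const_nhds.congr' ?_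
        filter_upwards [self_mem_nhdsWithin] with c hc using (h0 c (le_of_lt hc)).symm
      have e2 : leftLim J 0 ≤ J 0 := hJ.leftLim_le le_rfl
      linarith
    · rcases eq_or_lt_of_le ha.2 with h3 | h3
      · rw [h3, h1]
        have e2 : leftLim J 1 ≤ J 1 := hJ.leftLim_le le_rfl
        linarith
      · exact hcase a ⟨h2, h3⟩
  have hJ1 : J 0 ≤ J 1 := hJ zero_le_one
  have hab : u 0 < u 1 := by linarith
  have hPm := prm_mono hu hr hJ hat h0
  have hP0 : J 0 ≤ prm u J (u 0) := by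
    have e0 : crt u (u 0) = 0 := le_antisymm (crt_le ⟨le_rfl, zero_le_one⟩ le_rfl) (crt_mem hab.le).1
    have e1 : leftLim u 0 = u 0 := by
      apply leftLim_eq_of_tendsto
      refine tendsto_const_nhds.congr' ?_
      filter_upwards [self_mem_nhdsWithin] with c hc using (h0 c (le_of_lt hc)).symm
    have e2 : leftLim J 0 = J 0 := by
      apply leftLim_eq_of_tendsto
      refine tendsto_const_nhds.congr' ?_
      filter_upwards [self_mem_nhdsWithin] with c hc using (hJ0 c (le_of_lt hc)).symm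
    unfold prm
    rw [e0, e1, e2]
    linarith
  have hP1 : prm u J (u 1) ≤ J 1 := prm_lo hu hr hJ hat ⟨zero_le_one, le_rfl⟩
  -- the inverse function and the family in the parameter
  have hdm : ∀ F : ℝ → ℝ, MonotoneOn F (Icc (u 0) (u 1)) → ∀ᵐ v, v ∈ Ioo (u 0) (u 1) → DifferentiableAt ℝ F v := by
    intro F hF
    filter_upwards [hF.ae_differentiableWithinAt_of_mem] with v hv hvI
    exact (hv (Ioo_subset_Icc_self hvI)).differentiableAt (Icc_mem_nhds hvI.1 hvI.2)
  have hT : MonotoneOn (crt u) (Icc (u 0) (u 1)) := fun v _ v' hv' hvv => crt_mono hvv hv'.2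
  have hLT : ∀ i, MonotoneOn (fun v => L i (crt u v)) (Icc (u 0) (u 1)) := fun i v _ v' hv' hvv =>
    hL i (crt_mono hvv hv'.2)
  have hall : ∀ᵐ v, v ∈ Ioo (u 0) (u 1) → Q v ∧ DifferentiableAt ℝ (crt u) v ∧
      ∀ i, DifferentiableAt ℝ (fun v => L i (crt u v)) v := by
    have h2 : ∀ᵐ v, ∀ i, v ∈ Ioo (u 0) (u 1) → DifferentiableAt ℝ (fun v => L i (crt u v)) v :=
      ae_all_iff.mpr fun i => hdm _ (hLT i)
    filter_upwards [hQ, hdm _ hT, h2] with v a b c hv using ⟨a hv, b hv, fun i => c i hv⟩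
  obtain ⟨v, hv, ⟨hq, hTd, hLd⟩, hPd, hlt⟩ := exists_deriv_lt hab hPm (by linarith) hall
  obtain ⟨e1, e2⟩ := prm_slope hu h0 hv hr hPd.hasDerivAt hlt
  set a : ℝ := crt u v with ha
  have haI : a ∈ Ioo (0 : ℝ) 1 := by
    have h2 := crt_mem (u := u) hv.2.le
    refine ⟨lt_of_le_of_ne h2.1 ?_, lt_of_le_of_ne h2.2 ?_⟩
    · intro h3
      rw [← h3] at e2
      exact absurd e2 hv.1.ne
    · intro h3
      rw [h3] at e2
      exact absurd e2 hv.2.ne'
  have hcont : ContinuousAt u a := by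
    rw [continuousAt_iff_continuous_left'_right']
    refine ⟨?_, ?_⟩
    · rw [hu.continuousWithinAt_Iio_iff_leftLim_eq, e1, e2]
    · exact (hr a).mono Ioi_subset_Ici_self
  have hnear : ∀ᶠ c in 𝓝 a, c ∈ Ioo (0 : ℝ) 1 := Ioo_mem_nhds haI.1 haI.2
  have hsw : ∀ i, Cmp (L i) u a (deriv (fun v => L i (crt u v)) v) := by
    intro i
    refine sandwich e2 hv.2 hcont (hLd i).hasDerivAt ?_ ?_
    · filter_upwards [hnear] with c hc using hL i (crt_le (Ioo_subset_Icc_self hc) le_rfl)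
    · filter_upwards [hnear] with c hc v' h2 h3 using hL i (lt_crt hu hr h2 h3.le).le
  have hid : Cmp id u a (deriv (crt u) v) := by
    refine sandwich e2 hv.2 hcont hTd.hasDerivAt ?_ ?_
    · filter_upwards [hnear] with c hc using crt_le (Ioo_subset_Icc_self hc) le_rfl
    · filter_upwards [hnear] with c hc v' h2 h3 using (lt_crt hu hr h2 h3.le).le
  have hnn : ∀ F : ℝ → ℝ, MonotoneOn F (Icc (u 0) (u 1)) → 0 ≤ deriv F v := by
    intro F hF
    rw [← derivWithin_of_mem_nhds (Icc_mem_nhds hv.1 hv.2)]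
    exact hF.derivWithin_nonneg
  refine ⟨a, haI, hcont, by rw [e2]; exact hv, by rw [e2]; exact hq, ⟨_, ⟨hnn _ hPm, hlt⟩, ?_⟩,
    fun i => ⟨_, hnn _ (hLT i), hsw i⟩, ?_⟩
  · refine sandwich e2 hv.2 hcont hPd.hasDerivAt ?_ ?_
    · filter_upwards [hnear] with c hc using prm_lo hu hr hJ hat (Ioo_subset_Icc_self hc)
    · filter_upwards [hnear] with c hc v' h2 h3 using prm_up hu hr hJ h0 hc.1.le h2 h3.le
  · rcases eq_or_lt_of_le (hnn _ hT) with h3 | h3
    · right
      rw [← h3] at hid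
      exact hid
    · left
      exact ⟨(deriv (crt u) v)⁻¹, inv_pos.mpr h3, deriv_of_cmp h3 hid, by rw [inv_inv]; exact hid⟩

/-- **THE FIRST CORNER**: `u`, `J` monotone on `[0, 1]`, `u` right continuous, and left continuous at `1`, and
`J 1 - J 0 < u 1 - u 0`. Either an atom of `u` is larger than the atom of `J`, or there is a point `a` in `(0, 1)` where
`u` is continuous, `J` is differentiable with respect to `u` with a derivative less than one (and all functions of a
countable family are differentiable with respect to `u`), and `u` is differentiable with positive derivative, or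
infinitely fast -/
theorem first_abs {u J : ℝ → ℝ} (hu : MonotoneOn u (Icc 0 1)) (hJ : MonotoneOn J (Icc 0 1))
    (hr : ∀ c ∈ Ico (0 : ℝ) 1, ContinuousWithinAt u (Ici c) c) (h1 : ContinuousWithinAt u (Iio 1) 1)
    (htot : J 1 - J 0 < u 1 - u 0) {κ : Type*} [Countable κ] {L : κ → ℝ → ℝ} (hL : ∀ i, MonotoneOn (L i) (Icc 0 1))
    {Q : ℝ → Prop} (hQ : ∀ᵐ v, v ∈ Ioo (u 0) (u 1) → Q v) :
    (∃ a ∈ Ioo (0 : ℝ) 1, ∃ p q : ℝ, Tendsto u (𝓝[<] a) (𝓝 p) ∧ Tendsto J (𝓝[<] a) (𝓝 q) ∧ J a - q < u a - p) ∨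
      ∃ a ∈ Ioo (0 : ℝ) 1, ContinuousAt u a ∧ u a ∈ Ioo (u 0) (u 1) ∧ Q (u a) ∧ (∃ y ∈ Ico (0 : ℝ) 1, Cmp J u a y) ∧
        (∀ i, ∃ y, 0 ≤ y ∧ Cmp (L i) u a y) ∧ ((∃ w > 0, HasDerivAt u w a ∧ Cmp id u a w⁻¹) ∨ Cmp id u a 0) := by
  set cl : ℝ → ℝ := fun c => max 0 (min 1 c) with hcl
  have hclm : Monotone cl := fun a b h => max_le_max le_rfl (min_le_min le_rfl h)
  have hclI : ∀ c, cl c ∈ Icc (0 : ℝ) 1 := fun c => ⟨le_max_left _ _, max_le zero_le_one (min_le_left _ _)⟩
  have hcle : ∀ c ∈ Icc (0 : ℝ) 1, cl c = c := fun c hc => by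
    simp only [hcl]
    rw [min_eq_right hc.2, max_eq_right hc.1]
  have hcl0 : ∀ c ≤ (0 : ℝ), cl c = 0 := fun c hc => by
    simp only [hcl]
    rw [min_eq_right (hc.trans zero_le_one), max_eq_left hc]
  have hcl1 : ∀ c, (1 : ℝ) ≤ c → cl c = 1 := fun c hc => by
    simp only [hcl]
    rw [min_eq_left hc, max_eq_right zero_le_one]
  have hclc : Continuous cl := continuous_const.max (continuous_const.min continuous_id)
  have hmon : ∀ F : ℝ → ℝ, MonotoneOn F (Icc 0 1) → Monotone fun c => F (cl c) := fun F hF a b h =>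
    hF (hclI a) (hclI b) (hclm h)
  have e0 : cl 0 = 0 := hcl0 0 le_rfl
  have e1 : cl 1 = 1 := hcl1 1 le_rfl
  have hloc : ∀ (F : ℝ → ℝ) (a : ℝ), a ∈ Ioo (0 : ℝ) 1 → (fun c => F (cl c)) =ᶠ[𝓝 a] F := by
    intro F a ha
    filter_upwards [Ioo_mem_nhds ha.1 ha.2] with c hc
    rw [hcle c (Ioo_subset_Icc_self hc)]
  have hr' : ∀ c, ContinuousWithinAt (fun c => u (cl c)) (Ici c) c := by
    intro c
    rcases lt_or_ge c 1 with h2 | h2
    · have h3 : cl c ∈ Ico (0 : ℝ) 1 := ⟨(hclI c).1, max_lt one_pos (lt_of_le_of_lt (min_le_right _ _) h2)⟩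
      exact (hr _ h3).comp hclc.continuousWithinAt fun x hx => hclm hx
    · refine (continuousWithinAt_const (b := u 1)).congr (fun x hx => ?_) ?_
      · rw [hcl1 x (h2.trans hx)]
      · rw [hcl1 c h2]
  have hl1 : leftLim (fun c => u (cl c)) 1 = u (cl 1) := by
    apply leftLim_eq_of_tendsto
    rw [e1]
    refine Tendsto.congr' ?_ h1
    filter_upwards [Ioo_mem_nhdsLT (zero_lt_one' ℝ)] with c hc
    rw [hcle c (Ioo_subset_Icc_self hc)]
  have h2 := first_line (u := fun c => u (cl c)) (J := fun c => J (cl c)) (hmon u hu) (hmon J hJ) hr'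
    (fun c hc => by rw [hcl0 c hc, e0]) (fun c hc => by rw [hcl0 c hc, e0]) hl1
    (by simp only [e0, e1]; exact htot) (L := fun i c => L i (cl c)) (fun i => hmon _ (hL i)) (Q := Q)
    (by simp only [e0, e1]; exact hQ)
  have hcmp : ∀ (F : ℝ → ℝ) (a y : ℝ), a ∈ Ioo (0 : ℝ) 1 → Cmp (fun c => F (cl c)) (fun c => u (cl c)) a y →
      Cmp F u a y := by
    intro F a y ha h ε hε
    filter_upwards [h ε hε, Ioo_mem_nhds ha.1 ha.2] with c hc hc'
    simp only [hcle c (Ioo_subset_Icc_self hc'), hcle a (Ioo_subset_Icc_self ha)] at hc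
    exact hc
  have hcmp' : ∀ (a y : ℝ), a ∈ Ioo (0 : ℝ) 1 → Cmp id (fun c => u (cl c)) a y → Cmp id u a y := by
    intro a y ha h ε hε
    filter_upwards [h ε hε, Ioo_mem_nhds ha.1 ha.2] with c hc hc'
    simp only [hcle c (Ioo_subset_Icc_self hc'), hcle a (Ioo_subset_Icc_self ha)] at hc
    exact hc
  rcases h2 with ⟨a, ha, h3⟩ | ⟨a, ha, b1, b2, b3, ⟨y, hy, b4⟩, b5, b6⟩
  · left
    have hm : ∀ F : ℝ → ℝ, MonotoneOn F (Icc 0 1) → Tendsto F (𝓝[<] a) (𝓝 (leftLim (fun c => F (cl c)) a)) := by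
      intro F hF
      refine Tendsto.congr' ?_ ((hmon F hF).tendsto_leftLim a)
      exact (hloc F a ha).filter_mono nhdsWithin_le_nhds
    refine ⟨a, ha, _, _, hm u hu, hm J hJ, ?_⟩
    have h4 := h3
    simp only [hcle a (Ioo_subset_Icc_self ha)] at h4
    exact h4
  · right
    have e2 : cl a = a := hcle a (Ioo_subset_Icc_self ha)
    refine ⟨a, ha, ?_, ?_, ?_, ⟨y, hy, hcmp J a y ha b4⟩, fun i => ?_, ?_⟩
    · exact (continuousAt_congr (hloc u a ha)).mp b1
    · simp only [e2, e0, e1] at b2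
      exact b2
    · simp only [e2] at b3
      exact b3
    · obtain ⟨z, hz, b7⟩ := b5 i
      exact ⟨z, hz, hcmp (L i) a z ha b7⟩
    · rcases b6 with ⟨w, hw, b7, b8⟩ | b7
      · exact Or.inl ⟨w, hw, b7.congr_of_eventuallyEq (hloc u a ha).symm, hcmp' a _ ha b8⟩
      · exact Or.inr (hcmp' a 0 ha b7)

end

end Pool.Agent.Helper89.FST
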